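import Pool.Agent.Y858.CTE.Core
import Pool.Agent.Y696.CTE.Stm
import Pool.Agent.TH841.NF.Brd
import Pool.Agent.Y737.CTK.TrfA
import Pool.Agent.Y954.CTK.SHC
import Pool.Agent.Y811.CTK.PLC

/-!
# CTE-SHF: the Tate-Shafarevich group over the cubic extensions
-/

set_option autoImplicit false

open scoped Classical

namespace Pool.Agent.Y858.CTE

open NumberField IsDedekindDomain WeierstrassCurve
open Pool.Agent.Y692.QS (Ei w nr toC)
open Pool.Agent.Y703.CT
open Pool.Agent.Y715.T.Gi Pool.Agent.Y715.T.Nr Pool.Agent.Y715.T.Df Pool.Agent.Y715.T.Ell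
open Pool.Agent.TH841.NF (Sc tF tF_zero tF_some tF_add ns_iff aut_of_two place_p)
open Pool.Agent.TH841.NF.D (Sha)
open Pool.Agent.TH841.SH.D (Gal Coch IsCoc IsCob LocTriv cob)
open Pool.Agent.Y696.CTK (ED TrfData)
open Pool.Agent.Y737.CTK (ph ph_ev ph_apply gg gg_cont gg_symm_cont gg_apply sc Psi Psi_some
  Psi_zero eK eK_mem it_some pt_ext w_rel exists_e cg cg_apply)

/-- the data of the transfer -/
theorem trf_data {K : Type} [Field K] [NumberField K] (j : Ei ≃+* 𝓞 K)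
    (e : AlgebraicClosure K ≃+* QB) {i₀ : QB} (hi : i₀ ^ 2 + i₀ + 1 = 0) (h : ph j e w = i₀)
    {D : Ei} (hD : D ≠ 0) {u : QB} {a : GK i₀ → ZMod 3} (hT : Tw hi D u a) :
    TrfData K j D e i₀ hi u a (Psi (sc j e hi h hD hT.cube)) (gg j e hi h) := by
  have hu0 : u ≠ 0 := Pool.Agent.Y737.CTK.u_ne hi hD hT.cube
  have S := sc j e hi h hD hT.cube
  have hgs : ∀ (σ : Pool.Agent.TH841.SH.D.Gal K) (x : AlgebraicClosure K),
      e (σ x) = gg j e hi h σ (e x) := by
    intro σ x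
    rw [gg_apply, RingEquiv.symm_apply_apply]
  refine ⟨hT, fun z => ph_ev j e hi h z, gg_cont j e hi h, gg_symm_cont j e hi h, hgs, ?_, ?_⟩
  · intro x y hn
    have e1 : e x * u⁻¹ ^ 2 = e x / u ^ 2 := by rw [inv_pow, div_eq_mul_inv]
    have e2 : e y * u⁻¹ ^ 3 = e y / u ^ 3 := by rw [inv_pow, div_eq_mul_inv]
    have h1 := (ns_iff S x y).2 hn
    have h2 : (W0.baseChange QB).toAffine.Nonsingular (e x / u ^ 2) (e y / u ^ 3) := by
      rw [← e1, ← e2]
      exact h1
    exact ⟨h2, (Psi_some S x y hn).trans (pt_ext _ _ e1 e2)⟩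
  · intro σ P
    rcases P with _ | ⟨x, y, hn⟩
    · show Psi S (Pool.Agent.TH841.SH.D.act (ED (j D : K)) σ.toAlgHom 0) =
        act hi a (gg j e hi h σ) (Psi S 0)
      rw [map_zero, map_zero]
      show (0 : Pt QB) = jj hi (a _) (pm (gh _) 0)
      rw [map_zero]
      unfold jj
      exact (Function.iterate_fixed (map_zero _) _).symm
    · have hσn : ((ED (j D : K)).baseChange (AlgebraicClosure K)).toAffine.Nonsingular
          (σ.toAlgHom x) (σ.toAlgHom y) :=
        (Affine.baseChange_nonsingular (ED (j D : K)) σ.toAlgHom.injective ..).mpr hn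
      have e1 : Pool.Agent.TH841.SH.D.act (ED (j D : K)) σ.toAlgHom (Affine.Point.some x y hn) =
        (Affine.Point.some (σ.toAlgHom x) (σ.toAlgHom y) hσn) := rfl
      have hn2 := (ns_iff S x y).2 hn
      have hn3 : (W0.baseChange QB).toAffine.Nonsingular (gh (gg j e hi h σ) (e x * u⁻¹ ^ 2))
          (gh (gg j e hi h σ) (e y * u⁻¹ ^ 3)) :=
        (Affine.baseChange_nonsingular W0.toAffine (gh (gg j e hi h σ)).injective ..).mpr hn2
      have e2 : act hi a (gg j e hi h σ) (Psi S (Affine.Point.some x y hn)) =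
          jj hi (a (gg j e hi h σ)) (.some _ _ hn3) := rfl
      obtain ⟨h4, e3⟩ := it_some hi (a (gg j e hi h σ)).val hn3
      refine (congrArg (Psi S) e1).trans (Eq.trans ?_ (e3.symm.trans e2.symm))
      refine (Psi_some S _ _ hσn).trans (pt_ext _ _ ?_ ?_)
      · show e (σ x) * u⁻¹ ^ 2 = i₀ ^ (a (gg j e hi h σ)).val * (gg j e hi h σ) (e x * u⁻¹ ^ 2)
        have hI3 := i₀_cube hi
        rw [map_mul, ← hgs, map_pow, map_inv₀, hT.act]
        have e4 : ∀ c : ZMod 3, (i₀ ^ (-c).val) ^ 2 = i₀ ^ c.val := by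
          intro c
          rcases z3 c with rfl | rfl | rfl
          · simp
          · have a1 : (-1 : ZMod 3).val = 2 := by decide
            have a2 : (1 : ZMod 3).val = 1 := by decide
            rw [a1, a2]
            linear_combination i₀ * hI3
          · have a1 : (-1 : ZMod 3).val = 2 := by decide
            have a2 : (1 : ZMod 3).val = 1 := by decide
            rw [neg_neg, a1, a2]
            ring
        have hi0 : i₀ ≠ 0 := by
          rintro rfl
          norm_num at hI3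
        rw [mul_inv, mul_pow, inv_pow (i₀ ^ _), e4]
        have h5 : i₀ ^ (a (gg j e hi h σ)).val ≠ 0 := pow_ne_zero _ hi0
        field_simp
      · show e (σ y) * u⁻¹ ^ 3 = (gg j e hi h σ) (e y * u⁻¹ ^ 3)
        rw [map_mul, ← hgs, map_pow, map_inv₀, inv_pow, inv_pow, hT.cube, ← map_pow, hT.cube, gk_ev]

/-- the powers of the character -/
theorem tw_pow {i₀ : QB} {hi : i₀ ^ 2 + i₀ + 1 = 0} {D : Ei} {u : QB} {a : GK i₀ → ZMod 3}
    (hT : Tw hi D u a) (n : ℕ) : Tw hi (D ^ n) (u ^ n) (fun σ => (n : ZMod 3) * a σ) where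
  cube := by rw [← pow_mul, mul_comm, pow_mul, hT.cube, map_pow]
  act := fun σ => by
    have h3 := i₀_cube hi
    rw [map_pow, hT.act, mul_pow, ← pow_mul]
    congr 1
    have h1 : -((n : ZMod 3) * a σ) = (((-a σ).val * n : ℕ) : ZMod 3) := by
      push_cast
      rw [ZMod.natCast_zmod_val]
      ring
    rw [h1, ZMod.val_natCast]
    exact pow_eq_pow_mod _ h3

section field

variable {K F : Type} [Field K] [NumberField K] [Field F] [NumberField F] [Algebra K F]

/-- compatible identifications of the algebraic closures -/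
theorem exists_eF (hd : Module.finrank K F = 3) (e : AlgebraicClosure K ≃+* QB) :
    ∃ eF : AlgebraicClosure F ≃+* QB,
      ∀ x : K, eF (algebraMap F _ (algebraMap K F x)) = e (algebraMap K _ x) := by
  have h0 : Module.Finite K F := Module.finite_of_finrank_pos (by rw [hd]; norm_num)
  have h1 : Algebra.IsAlgebraic K (AlgebraicClosure F) := Algebra.IsAlgebraic.trans K F _
  have h2 : IsAlgClosure K (AlgebraicClosure F) := ⟨inferInstance, h1⟩
  let κ := IsAlgClosure.equiv K (AlgebraicClosure F) (AlgebraicClosure K)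
  refine ⟨κ.toRingEquiv.trans e, fun x => ?_⟩
  show e (κ (algebraMap F _ (algebraMap K F x))) = _
  rw [← IsScalarTower.algebraMap_apply K F (AlgebraicClosure F), κ.commutes]

variable {j : Ei ≃+* 𝓞 K} {D : Ei} {θ : 𝓞 F} (hC : Pool.Agent.Y696.CTE.Cub j D θ)
  {e : AlgebraicClosure K ≃+* QB} {eF : AlgebraicClosure F ≃+* QB}
  (hc : ∀ x : K, eF (algebraMap F _ (algebraMap K F x)) = e (algebraMap K _ x))
  {i₀ : QB} (hi : i₀ ^ 2 + i₀ + 1 = 0) (h : ph j e w = i₀)

include hC in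
theorem cubF : (θ : F) ^ 3 = algebraMap K F (j D : K) := by
  have h1 := congrArg (algebraMap (𝓞 F) F) hC.cube
  rw [map_pow] at h1
  rw [h1, ← IsScalarTower.algebraMap_apply (𝓞 K) (𝓞 F) F, ← IsScalarTower.algebraMap_apply
    (𝓞 K) K F]

include hC hc hi h in
theorem fix_F (σ : GK i₀) (hσ : σ (eF (algebraMap F _ (θ : F))) = eF (algebraMap F _ (θ : F)))
    (x : F) : σ (eF (algebraMap F _ x)) = eF (algebraMap F _ x) := by
  let L : IntermediateField K F :=
    { carrier := {x | σ (eF (algebraMap F _ x)) = eF (algebraMap F _ x)}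
      mul_mem' := fun {x y} hx hy => by
        rw [Set.mem_ofPred_eq] at hx hy ⊢
        rw [map_mul, map_mul, map_mul, hx, hy]
      add_mem' := fun {x y} hx hy => by
        rw [Set.mem_ofPred_eq] at hx hy ⊢
        rw [map_add, map_add, map_add, hx, hy]
      algebraMap_mem' := fun r => by
        rw [Set.mem_ofPred_eq, hc]
        exact σ.commutes (⟨eK e r, eK_mem j e hi h r⟩ : KK i₀)
      inv_mem' := fun x hx => by
        rw [Set.mem_ofPred_eq] at hx ⊢
        rw [map_inv₀, map_inv₀, map_inv₀, hx] }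
  have hs := IntermediateField.isSimpleOrder_of_finrank_prime K F
    (by rw [hC.deg]; exact Nat.prime_three)
  rcases hs.eq_bot_or_eq_top L with hL | hL
  · exfalso
    have hθ : (θ : F) ∈ L := hσ
    rw [hL, IntermediateField.mem_bot] at hθ
    obtain ⟨y, hy⟩ := hθ
    have hy3 : y ^ 3 = (j D : K) := (algebraMap K F).injective (by
      rw [map_pow, hy]
      exact cubF hC)
    have hint : IsIntegral ℤ y := by
      apply IsIntegral.of_pow (n := 3) (by norm_num)
      rw [hy3]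
      exact (j D).2
    let z : 𝓞 K := ⟨y, hint⟩
    have hz : z ^ 3 = j D := RingOfIntegers.ext hy3
    apply hC.ncube (j.symm z)
    rw [← map_pow, hz, j.symm_apply_apply]
  · have : x ∈ L := by
      rw [hL]
      exact IntermediateField.mem_top
    exact this

end field

section F

variable {F : Type} [Field F] [NumberField F] {eF : AlgebraicClosure F ≃+* QB} {i₀ : QB}

/-- the conjugation -/
noncomputable def cj (eF : AlgebraicClosure F ≃+* QB) (σ : GK i₀)
    (hσ : ∀ x : F, σ (eF (algebraMap F _ x)) = eF (algebraMap F _ x)) : Gal F :=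
  { toFun := fun x => eF.symm (σ (eF x))
    invFun := fun x => eF.symm (σ.symm (eF x))
    left_inv := fun x => by simp
    right_inv := fun x => by simp
    map_mul' := fun x y => by simp
    map_add' := fun x y => by simp
    commutes' := fun x => by
      show eF.symm (σ (eF (algebraMap F _ x))) = _
      rw [hσ, eF.symm_apply_apply] }

theorem cj_apply (σ : GK i₀) (hσ : ∀ x : F, σ (eF (algebraMap F _ x)) = eF (algebraMap F _ x))
    (x : AlgebraicClosure F) : eF (cj eF σ hσ x) = σ (eF x) := by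
  show eF (eF.symm (σ (eF x))) = _
  rw [eF.apply_symm_apply]

theorem exists_lift (σ' : Gal F) (h0 : eF (σ' (eF.symm i₀)) = i₀) :
    ∃ σ : GK i₀, ∀ x, σ (eF x) = eF (σ' x) := by
  have hmem : cg eF σ' ∈ (KK i₀).fixingSubgroup := by
    rw [IntermediateField.mem_fixingSubgroup_iff]
    intro x hx
    have hint : IsAlgebraic ℚ i₀ := Algebra.IsAlgebraic.isAlgebraic i₀
    have h1 : x ∈ Algebra.adjoin ℚ {i₀} := by
      rw [← IntermediateField.adjoin_simple_toSubalgebra_of_isAlgebraic hint]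
      exact hx
    clear hx
    induction h1 using Algebra.adjoin_induction with
    | mem y hy =>
      rw [Set.mem_singleton_iff] at hy
      rw [hy]
      exact h0
    | algebraMap r => exact (cg eF σ').commutes r
    | add y z _ _ ihy ihz => rw [map_add, ihy, ihz]
    | mul y z _ _ ihy ihz => rw [map_mul, ihy, ihz]
  refine ⟨IntermediateField.fixingSubgroupEquiv (KK i₀) ⟨cg eF σ', hmem⟩, fun x => ?_⟩
  show cg eF σ' (eF x) = _
  rw [cg_apply, eF.symm_apply_apply]

omit [NumberField F] in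
theorem scF : Sc (eF : AlgebraicClosure F →+* QB) 1
    ((ED (1 : F)).baseChange (AlgebraicClosure F)) (W0.baseChange QB) where
  hu := one_ne_zero
  h1 := by
    show algebraMap ℚ QB 0 = eF (algebraMap F _ 0) * 1
    simp
  h2 := by
    show algebraMap ℚ QB 0 = eF (algebraMap F _ 0) * 1 ^ 2
    simp
  h3 := by
    show algebraMap ℚ QB 1 = eF (algebraMap F _ 1) * 1 ^ 3
    simp
  h4 := by
    show algebraMap ℚ QB 0 = eF (algebraMap F _ 0) * 1 ^ 4
    simp
  h6 := by
    show algebraMap ℚ QB 0 = eF (algebraMap F _ 0) * 1 ^ 6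
    simp

theorem Psi_act (S : Sc (eF : AlgebraicClosure F →+* QB) 1
    ((ED (1 : F)).baseChange (AlgebraicClosure F)) (W0.baseChange QB))
    {σ : GK i₀} {σ' : Gal F} (hs : ∀ x, σ (eF x) = eF (σ' x))
    (P : Pool.Agent.TH841.SH.D.Pt (ED (1 : F)) (AlgebraicClosure F)) :
    Psi S (Pool.Agent.TH841.SH.D.act (ED (1 : F)) σ'.toAlgHom P) = pm (gh σ) (Psi S P) := by
  rcases P with _ | ⟨x, y, hn⟩
  · show Psi S (Pool.Agent.TH841.SH.D.act (ED (1 : F)) σ'.toAlgHom 0) = pm (gh σ) (Psi S 0)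
    rw [map_zero, map_zero, map_zero]
  · refine pt_ext _ _ ?_ ?_
    · show eF (σ' x) * 1 ^ 2 = σ (eF x * 1 ^ 2)
      rw [one_pow, mul_one, mul_one, hs]
    · show eF (σ' y) * 1 ^ 3 = σ (eF y * 1 ^ 3)
      rw [one_pow, mul_one, mul_one, hs]

theorem local_F (S : Sc (eF : AlgebraicClosure F →+* QB) 1
    ((ED (1 : F)).baseChange (AlgebraicClosure F)) (W0.baseChange QB))
    {f : Coch (ED (1 : F))} (hf : Pool.Agent.TH841.NF.D.IsShaCoc (ED (1 : F)) f)
    (p : ℕ) [Fact p.Prime] (ι : QB →ₐ[ℚ] PadicAlgCl p) :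
    ∃ R : Pt (PadicAlgCl p), ∀ (τ : Au p) (σ' : Gal F), (∀ x, τ (ι (eF x)) = ι (eF (σ' x))) →
      pm ι (Psi S (f σ')) = pm (lh τ) R - R := by
  obtain ⟨v, β, hβ, hfix⟩ := place_p (p := p) ((ι : QB →+* PadicAlgCl p).comp
    ((eF : AlgebraicClosure F →+* QB).comp (algebraMap F (AlgebraicClosure F))))
  let i1 : Algebra (v.adicCompletion F) (PadicAlgCl p) := β.toAlgebra
  let β' : AlgebraicClosure (v.adicCompletion F) →ₐ[v.adicCompletion F] PadicAlgCl p :=
    IsAlgClosed.lift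
  have hβ' : ∀ y : v.adicCompletion F, β' (algebraMap _ _ y) = β y := fun y => β'.commutes y
  let ι₀ : AlgebraicClosure F →ₐ[F] AlgebraicClosure (v.adicCompletion F) := IsAlgClosed.lift
  obtain ⟨σ₀, hσ₀⟩ := aut_of_two
    ((β' : AlgebraicClosure (v.adicCompletion F) →+* PadicAlgCl p).comp
      (ι₀ : AlgebraicClosure F →+* AlgebraicClosure (v.adicCompletion F)))
    ((ι : QB →+* PadicAlgCl p).comp (eF : AlgebraicClosure F →+* QB)) (by
      intro x
      change β' (ι₀ (algebraMap F _ x)) = ι (eF (algebraMap F _ x))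
      rw [ι₀.commutes]
      refine Eq.trans ?_ (hβ x)
      exact hβ' (algebraMap F (v.adicCompletion F) x))
  have hσ1 : ∀ x, ι (eF x) = β' (ι₀ (σ₀ x)) := hσ₀
  let ι' : AlgebraicClosure F →ₐ[F] AlgebraicClosure (v.adicCompletion F) :=
    ι₀.comp σ₀.toAlgHom
  have hι : ∀ x, ι (eF x) = β' (ι' x) := hσ1
  obtain ⟨P', hP'⟩ := hf.2.1 v ι'
  have S' : Sc (β' : AlgebraicClosure (v.adicCompletion F) →+* PadicAlgCl p) 1
      ((ED (1 : F)).baseChange (AlgebraicClosure (v.adicCompletion F)))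
      (W0.baseChange (PadicAlgCl p)) := by
    refine ⟨one_ne_zero, ?_, ?_, ?_, ?_, ?_⟩
    · show algebraMap ℚ _ 0 = β' (algebraMap F _ 0) * _
      rw [map_zero, map_zero, map_zero, zero_mul]
    · show algebraMap ℚ _ 0 = β' (algebraMap F _ 0) * _
      rw [map_zero, map_zero, map_zero, zero_mul]
    · show algebraMap ℚ _ 1 = β' (algebraMap F _ 1) * _
      rw [map_one, map_one, map_one, one_pow, one_mul]
    · show algebraMap ℚ _ 0 = β' (algebraMap F _ 0) * _
      rw [map_zero, map_zero, map_zero, zero_mul]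
    · show algebraMap ℚ _ 0 = β' (algebraMap F _ 0) * _
      rw [map_zero, map_zero, map_zero, zero_mul]
  let M : Pool.Agent.TH841.SH.D.Pt (ED (1 : F)) (AlgebraicClosure (v.adicCompletion F)) →+
      Pt (PadicAlgCl p) :=
    { toFun := tF S'
      map_zero' := rfl
      map_add' := tF_add S' }
  have M_some : ∀ x y h, M (Affine.Point.some x y h :
      ((ED (1 : F)).baseChange (AlgebraicClosure (v.adicCompletion F))).toAffine.Point) =
      Affine.Point.some (β' x * 1 ^ 2) (β' y * 1 ^ 3)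
        ((Pool.Agent.TH841.NF.ns_iff S' x y).2 h) := fun _ _ _ => rfl
  have M_zero : M (0 : Pool.Agent.TH841.SH.D.Pt (ED (1 : F))
      (AlgebraicClosure (v.adicCompletion F))) = 0 := map_zero M
  have hM1 : ∀ Q : Pool.Agent.TH841.SH.D.Pt (ED (1 : F)) (AlgebraicClosure F),
      pm ι (Psi S Q) = M (Pool.Agent.TH841.SH.D.act (ED (1 : F)) ι' Q) := by
    intro Q
    rcases Q with _ | ⟨x, y, h⟩
    · have e1 : Psi S (0 : Pool.Agent.TH841.SH.D.Pt (ED (1 : F)) (AlgebraicClosure F)) = 0 :=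
        map_zero (Psi S)
      have e2 : Pool.Agent.TH841.SH.D.act (ED (1 : F)) ι'
        (0 : Pool.Agent.TH841.SH.D.Pt (ED (1 : F)) (AlgebraicClosure F)) = 0 := map_zero _
      refine (congrArg (pm ι) e1).trans ?_
      rw [map_zero]
      exact ((congrArg M e2).trans M_zero).symm
    · refine pt_ext _ _ ?_ ?_
      · show ι (eF x * 1 ^ 2) = β' (ι' x) * 1 ^ 2
        simp only [one_pow, mul_one]
        exact hι x
      · show ι (eF y * 1 ^ 3) = β' (ι' y) * 1 ^ 3
        simp only [one_pow, mul_one]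
        exact hι y
  refine ⟨M P', fun τ σ' hcc => ?_⟩
  have hfx : ∀ y, τ (β y) = β y := by
    apply hfix
    intro x
    change τ (ι (eF (algebraMap F _ x))) = ι (eF (algebraMap F _ x))
    rw [hcc, σ'.commutes]
  obtain ⟨τ', hτ'⟩ := aut_of_two
    (β' : AlgebraicClosure (v.adicCompletion F) →+* PadicAlgCl p)
    (((τ : PadicAlgCl p ≃+* PadicAlgCl p) : PadicAlgCl p →+* PadicAlgCl p).comp
      (β' : AlgebraicClosure (v.adicCompletion F) →+* PadicAlgCl p)) (by
      intro y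
      change β' (algebraMap _ _ y) = τ (β' (algebraMap _ _ y))
      rw [hβ', hfx])
  have hτ2 : ∀ x, τ (β' x) = β' (τ' x) := hτ'
  have hcomp : ∀ x, τ' (ι' x) = ι' (σ' x) := by
    intro x
    apply (β' : AlgebraicClosure (v.adicCompletion F) →+* PadicAlgCl p).injective
    change β' (τ' (ι' x)) = β' (ι' (σ' x))
    rw [← hτ2, ← hι, ← hι, hcc]
  have h1 := hP' τ' σ' hcomp
  rw [hM1, h1, map_sub]
  congr 1
  rcases P' with _ | ⟨x, y, h⟩
  · have e2 : Pool.Agent.TH841.SH.D.act (ED (1 : F)) (τ'.toAlgHom.restrictScalars F)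
      (0 : Pool.Agent.TH841.SH.D.Pt (ED (1 : F)) (AlgebraicClosure (v.adicCompletion F))) = 0 :=
      map_zero _
    refine ((congrArg M e2).trans M_zero).trans ?_
    have e3 : pm (lh τ) (M (0 : Pool.Agent.TH841.SH.D.Pt (ED (1 : F))
      (AlgebraicClosure (v.adicCompletion F)))) = 0 := by rw [M_zero, map_zero]
    exact e3.symm
  · refine pt_ext _ _ ?_ ?_
    · show β' (τ' x) * 1 ^ 2 = τ (β' x * 1 ^ 2)
      simp only [one_pow, mul_one]
      exact (hτ2 x).symm
    · show β' (τ' y) * 1 ^ 3 = τ (β' y * 1 ^ 3)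
      simp only [one_pow, mul_one]
      exact (hτ2 y).symm

end F

theorem shf : Pool.Agent.Y696.CTE.S_SHF := by
  intro K F _ _ _ _ _ j D θ hC hS0 hS1 hS2 n x hx
  obtain ⟨e⟩ := exists_e K
  obtain ⟨i₀, h⟩ : ∃ i₀, ph j e w = i₀ := ⟨_, rfl⟩
  have hi : i₀ ^ 2 + i₀ + 1 = 0 := by rw [← h]; exact w_rel j e
  obtain ⟨eF, hc⟩ := exists_eF hC.deg e
  obtain ⟨t, htd⟩ : ∃ t : QB, t = eF (algebraMap F _ (θ : F)) := ⟨_, rfl⟩
  have ht : t ^ 3 = ev i₀ hi D := by
    rw [htd, ← map_pow, ← map_pow, cubF hC, hc, ← ph_apply, ph_ev j e hi h]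
  have ht0 : t ≠ 0 := by
    rintro rfl
    exact ev_ne hi hC.ne0 (by rw [← ht]; ring)
  have h3 : i₀ ^ 3 = 1 := i₀_cube hi
  have hca : ∀ σ : GK i₀, ∃ c : ZMod 3, σ t = i₀ ^ (-c).val * t := by
    intro σ
    have h1 : (σ t) ^ 3 = t ^ 3 := by rw [← map_pow, ht, gk_ev]
    obtain ⟨n, hn⟩ := cube_eq hi h1
    refine ⟨-(n : ZMod 3), ?_⟩
    rw [neg_neg, ZMod.val_natCast, hn]
    congr 1
    exact pow_eq_pow_mod _ h3
  choose a ha using hca
  have hT : Tw hi D t a := ⟨ht, ha⟩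
  have haa := Pool.Agent.Y155.CT.a_mul hC.ne0 hT
  have ha0 : ∀ σ, σ t = t → a σ = 0 := by
    intro σ hσ
    have h1 := ha σ
    rw [hσ] at h1
    have h2 : i₀ ^ (0 : ZMod 3).val = i₀ ^ (-a σ).val := by
      rw [ZMod.val_zero, pow_zero]
      exact mul_right_cancel₀ ht0 (by rw [one_mul]; exact h1)
    have h4 := Pool.Agent.Y155.CT.ip_inj (hi := hi) h2
    exact neg_eq_zero.1 h4.symm
  have ha1 : ∀ σ, a σ = 0 → σ t = t := by
    intro σ hσ
    rw [ha, hσ, neg_zero, ZMod.val_zero, pow_zero, one_mul]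
  have hfx : ∀ σ : GK i₀, a σ = 0 → ∀ x : F, σ (eF (algebraMap F _ x)) = eF (algebraMap F _ x) :=
    fun σ hσ => fix_F hC hc hi h σ (by rw [← htd]; exact ha1 σ hσ)
  have key : ∀ m : ℕ, (∀ (n : ℕ) (x : Sha (ED (j (D ^ m) : K))), 3 ^ n • x = 0 → x = 0) →
      ShK hi (fun σ => (m : ZMod 3) * a σ) := fun m hm =>
    Pool.Agent.Y954.CTK.shc Pool.Agent.Y811.CTK.t_PLC K j (D ^ m) (pow_ne_zero _ hC.ne0) e i₀ hi
      (t ^ m) _ _ _ (trf_data j e hi h (pow_ne_zero _ hC.ne0) (tw_pow hT m)) hm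
  have hSh : ∀ c : ZMod 3, ShK hi (fun σ => c * a σ) := by
    intro c
    have k0 := key 0 (by
      have e1 : ((j (D ^ 0) : 𝓞 K) : K) = 1 := by
        rw [pow_zero, map_one]
        rfl
      rw [e1]
      exact hS0)
    have k1 := key 1 (by rw [pow_one]; exact hS1)
    have k2 := key 2 hS2
    rcases z3 c with rfl | rfl | rfl
    · rw [Nat.cast_zero] at k0
      exact k0
    · rw [Nat.cast_one] at k1
      exact k1
    · have e1 : ((2 : ℕ) : ZMod 3) = -1 := by decide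
      rw [e1] at k2
      exact k2
  have S := scF (eF := eF)
  obtain ⟨f, rfl⟩ := QuotientAddGroup.mk_surjective x
  have hx1 : (QuotientAddGroup.mk ((3 ^ n : ℕ) • f) :
      Pool.Agent.TH841.NF.D.shaCoc (ED (1 : F)) ⧸
        (Pool.Agent.TH841.SH.D.cob (ED (1 : F))).addSubgroupOf
          (Pool.Agent.TH841.NF.D.shaCoc (ED (1 : F)))) = 0 := hx
  rw [QuotientAddGroup.eq_zero_iff, AddSubgroup.mem_addSubgroupOf] at hx1
  obtain ⟨P, hP⟩ := hx1
  have hsha := f.2
  have hcm := f.2.1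
  have hP' : ∀ σ, 3 ^ n • f.1 σ =
      Pool.Agent.TH841.SH.D.act (ED (1 : F)) σ.toAlgHom P - P := hP
  let f' : GK i₀ → Pt QB := fun σ => if hσ : a σ = 0 then Psi S (f.1 (cj eF σ (hfx σ hσ))) else 0
  have hf' : ∀ (σ : GK i₀) (σ' : Gal F), a σ = 0 → (∀ x, σ (eF x) = eF (σ' x)) →
      f' σ = Psi S (f.1 σ') := by
    intro σ σ' hσ hs
    show (if hσ : a σ = 0 then Psi S (f.1 (cj eF σ (hfx σ hσ))) else 0) = _
    have he : cj eF σ (hfx σ hσ) = σ' := AlgEquiv.ext fun x => eF.injective (by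
      rw [cj_apply, hs])
    rw [dif_pos hσ, he]
  have hcs : ∀ (σ : GK i₀) (hσ : a σ = 0) (x), σ (eF x) = eF (cj eF σ (hfx σ hσ) x) := by
    intro σ hσ x
    rw [cj_apply]
  have c1 : ∀ σ τ, a σ = 0 → a τ = 0 → f' (σ * τ) = f' σ + pm (gh σ) (f' τ) := by
    intro σ τ hσ hτ
    rw [hf' (σ * τ) (cj eF σ (hfx σ hσ) * cj eF τ (hfx τ hτ)) (by rw [haa, hσ, hτ, add_zero])
      (fun x => by
        rw [AlgEquiv.mul_apply, AlgEquiv.mul_apply, hcs τ hτ, hcs σ hσ]),
      hf' σ _ hσ (hcs σ hσ), hf' τ _ hτ (hcs τ hτ), ← Psi_act S (hcs σ hσ), ← map_add]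
    congr 1
    exact hcm.2 _ _
  have c2 : {σ : GK i₀ | a σ = 0 ∧ f' σ = 0} ∈ nhds (1 : GK i₀) := by
    obtain ⟨T, hTf⟩ := Pool.Agent.TH841.NF.coc_fin hcm
    have hst : ∀ y : QB, {σ : GK i₀ | σ y = y} ∈ nhds (1 : GK i₀) := by
      intro y
      exact (stabilizer_isOpen_of_isIntegral (K := KK i₀) y).mem_nhds
        (MulAction.stabilizer (GK i₀) y).one_mem
    have h1 : (⋂ x ∈ T, {σ : GK i₀ | σ (eF x) = eF x}) ∈ nhds (1 : GK i₀) := by
      rw [Filter.biInter_finset_mem]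
      exact fun x _ => hst _
    refine Filter.mem_of_superset (Filter.inter_mem (hst t) h1) ?_
    rintro σ ⟨h2, h4⟩
    have h5 := ha0 σ h2
    refine ⟨h5, ?_⟩
    rw [hf' σ _ h5 (hcs σ h5)]
    have h6 : f.1 (cj eF σ (hfx σ h5)) = 0 := by
      apply hTf
      intro x hx
      apply eF.injective
      rw [cj_apply]
      have h7 := Set.mem_iInter.1 (Set.mem_iInter.1 h4 x) hx
      exact h7
    rw [h6, map_zero]
  have c3 : ∀ (p : ℕ) [Fact p.Prime] (ι : QB →ₐ[ℚ] PadicAlgCl p), ∃ R : Pt (PadicAlgCl p),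
      ∀ (τ : Au p) (σ : GK i₀), a σ = 0 → Cmp ι τ σ → pm ι (f' σ) = pm (lh τ) R - R := by
    intro p _ ι
    obtain ⟨R, hR⟩ := local_F S hsha p ι
    refine ⟨R, fun τ σ hσ hcm => ?_⟩
    rw [hf' σ _ hσ (hcs σ hσ)]
    apply hR
    intro x
    rw [hcm, hcs σ hσ]
  have c4 : ∃ P, ∀ σ, a σ = 0 → 3 ^ n • f' σ = pm (gh σ) P - P := by
    refine ⟨Psi S P, fun σ hσ => ?_⟩
    rw [hf' σ _ hσ (hcs σ hσ), ← map_nsmul, hP', map_sub, Psi_act S (hcs σ hσ)]
  obtain ⟨Q, hQ⟩ := core hi haa c1 c2 c3 hSh n c4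
  have hi0F : eF (algebraMap F (AlgebraicClosure F) (algebraMap K F (j w : K))) = i₀ := by
    rw [hc, ← ph_apply, h]
  have hgoal : (QuotientAddGroup.mk ((3 : ℕ) • f) :
      Pool.Agent.TH841.NF.D.shaCoc (ED (1 : F)) ⧸
        (Pool.Agent.TH841.SH.D.cob (ED (1 : F))).addSubgroupOf
          (Pool.Agent.TH841.NF.D.shaCoc (ED (1 : F)))) = 0 := by
    rw [QuotientAddGroup.eq_zero_iff, AddSubgroup.mem_addSubgroupOf]
    refine ⟨(Psi S).symm Q, fun σ' => ?_⟩
    obtain ⟨σ, hs⟩ := exists_lift (eF := eF) (i₀ := i₀) σ' (by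
      rw [← hi0F, eF.symm_apply_apply, σ'.commutes])
    have hσ : a σ = 0 := by
      apply ha0
      rw [htd, hs, σ'.commutes]
    apply (Psi S).injective
    have h5 := hQ σ hσ
    rw [hf' σ σ' hσ hs] at h5
    refine Eq.trans ?_ (h5.trans ?_)
    · exact map_nsmul (Psi S) 3 (f.1 σ')
    · rw [map_sub, Psi_act S hs, AddEquiv.apply_symm_apply]
  exact hgoal

end Pool.Agent.Y858.CTE
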