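import Pool.Agent.Y155.CT.Act
import Pool.Agent.TH841.NF.Cor

/-!
# Corestriction with the cubic characters
-/

set_option autoImplicit false

open scoped Classical

namespace Pool.Agent.Y858.CTE

open WeierstrassCurve
open Pool.Agent.Y692.QS (Ei w nr toC)
open Pool.Agent.Y703.CT
open Pool.Agent.Y715.T.Gi Pool.Agent.Y715.T.Nr Pool.Agent.Y715.T.Df Pool.Agent.Y715.T.Ell
open Pool.Agent.Y155.CT (jj_jj pm_jj ah ah_apply ah_mul act_def jj_add jj_zero)
open Pool.Agent.TH841.NF (cor cor_coc cor_cob cor_zero_of mem_H chi_s Loc exists_family)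

/-- the section -/
noncomputable def sec {G : Type} [Group G] (H : Subgroup G) (q : G ⧸ H) : G :=
  if q = ((1 : G) : G ⧸ H) then 1 else Quotient.out q

lemma sec_spec {G : Type} [Group G] (H : Subgroup G) (q : G ⧸ H) :
    ((sec H q : G) : G ⧸ H) = q := by
  unfold sec
  split_ifs with h
  · exact h.symm
  · exact Quotient.out_eq q

lemma sec_one {G : Type} [Group G] (H : Subgroup G) : sec H ((1 : G) : G ⧸ H) = 1 := by
  unfold sec
  rw [if_pos rfl]

section jj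

variable {F : Type} [Field F] [Algebra ℚ F] [CharZero F] {I : F} (hI : I ^ 2 + I + 1 = 0)

lemma jj_z (P : Pt F) : jj hI 0 P = P := by
  unfold jj
  rw [ZMod.val_zero]
  rfl

lemma jj_sum {ι : Type} (s : Finset ι) (c : ZMod 3) (f : ι → Pt F) :
    jj hI c (∑ i ∈ s, f i) = ∑ i ∈ s, jj hI c (f i) := by
  induction s using Finset.induction_on with
  | empty => rw [Finset.sum_empty, Finset.sum_empty, jj_zero]
  | insert i s hi ih => rw [Finset.sum_insert hi, Finset.sum_insert hi, jj_add, ih]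

lemma jj_sub (c : ZMod 3) (P Q : Pt F) : jj hI c (P - Q) = jj hI c P - jj hI c Q := by
  have h := jj_add hI c (P - Q) Q
  rw [sub_add_cancel] at h
  rw [h, add_sub_cancel_right]

lemma sum_jj {b : ZMod 3} (hb : b ≠ 0) (P : Pt F) : ∑ c : ZMod 3, jj hI (c * b) P = 0 := by
  have h1 : ∑ c : ZMod 3, jj hI c P = 0 := by
    have h2 : ∑ c : ZMod 3, jj hI c P = jj hI 0 P + jj hI 1 P + jj hI 2 P :=
      Fin.sum_univ_three _
    rw [h2]
    have h3 : jj hI 1 P = im (isE F) hI P := rfl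
    have h4 : jj hI 2 P = im (isE F) hI (im (isE F) hI P) := rfl
    rw [jj_z, h3, h4, im_im]
    abel
  rw [← h1]
  exact Fintype.sum_equiv (Equiv.mulRight₀ b hb) _ _ (fun c => rfl)

end jj

section core

variable {i₀ : QB} (hi : i₀ ^ 2 + i₀ + 1 = 0) {a : GK i₀ → ZMod 3}
  (ha : ∀ σ τ, a (σ * τ) = a σ + a τ)

/-- the character -/
noncomputable def chr : GK i₀ →* Multiplicative (ZMod 3) where
  toFun σ := Multiplicative.ofAdd (a σ)
  map_one' := by
    have h := ha 1 1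
    rw [mul_one] at h
    rw [left_eq_add.1 h]
    rfl
  map_mul' σ τ := by
    rw [ha]
    rfl

/-- the kernel -/
noncomputable def HK : Subgroup (GK i₀) := (chr ha).ker

lemma mem_HK (σ : GK i₀) : σ ∈ HK ha ↔ a σ = 0 := by
  unfold HK
  rw [MonoidHom.mem_ker]
  exact Iff.rfl

instance : (HK ha).Normal := MonoidHom.normal_ker _

instance : (HK ha).FiniteIndex := by
  unfold HK
  infer_instance

noncomputable instance : Fintype (GK i₀ ⧸ HK ha) := Subgroup.fintypeQuotientOfFiniteIndex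

lemma gh_one (P : Pt QB) : pm (gh (1 : GK i₀)) P = P := pm_id P

/-- the twisted actions -/
noncomputable def Ac (c : ZMod 3) : GK i₀ →* AddMonoid.End (Pt QB) where
  toFun σ := ah hi (fun σ => c * a σ) σ
  map_one' := by
    have h := ha 1 1
    rw [mul_one] at h
    ext P
    show act hi (fun σ => c * a σ) 1 P = P
    rw [act_def, left_eq_add.1 h, mul_zero, jj_z, gh_one]
  map_mul' σ τ := by
    ext P
    exact ah_mul hi (a := fun σ => c * a σ) (fun σ τ => by rw [ha, mul_add]) σ τ P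

lemma Ac_apply (c : ZMod 3) (σ : GK i₀) (P : Pt QB) :
    Ac hi ha c σ P = jj hi (c * a σ) (pm (gh σ) P) := rfl

lemma Ac_H (c : ZMod 3) {σ : GK i₀} (h : a σ = 0) (P : Pt QB) :
    Ac hi ha c σ P = pm (gh σ) P := by
  rw [Ac_apply, h, mul_zero, jj_z]

lemma one_H : ∀ h ∈ HK ha, (1 : GK i₀ →* ℤ) h = 1 := fun _ _ => rfl

/-- the corestriction -/
noncomputable def Co (f : GK i₀ → Pt QB) (c : ZMod 3) (σ : GK i₀) : Pt QB :=
  cor (sec (HK ha)) (Ac hi ha c) (1 : GK i₀ →* ℤ) f σ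

variable {f : GK i₀ → Pt QB} (hf : ∀ σ τ, a σ = 0 → a τ = 0 → f (σ * τ) = f σ + pm (gh σ) (f τ))

include hf in
lemma hf' (c : ZMod 3) : ∀ x ∈ HK ha, ∀ y ∈ HK ha, f (x * y) = f x + Ac hi ha c x (f y) := by
  intro x hx y hy
  rw [mem_HK] at hx hy
  rw [Ac_H hi ha c hx]
  exact hf x y hx hy

include hf in
lemma Co_coc (c : ZMod 3) (σ τ : GK i₀) :
    Co hi ha f c (σ * τ) = Co hi ha f c σ + act hi (fun σ => c * a σ) σ (Co hi ha f c τ) := by
  have h := cor_coc (sec_spec (HK ha)) (Ac hi ha c) (one_H ha) (hf' hi ha hf c) σ τ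
  have h1 : (1 : GK i₀ →* ℤ) σ = 1 := rfl
  rw [h1, one_smul] at h
  exact h

lemma Co_smul (n : ℕ) (c : ZMod 3) (σ : GK i₀) :
    n • Co hi ha f c σ = Co hi ha (fun τ => n • f τ) c σ := by
  unfold Co cor
  rw [Finset.smul_sum]
  refine Finset.sum_congr rfl fun q _ => ?_
  rw [map_nsmul]
  exact smul_comm _ _ _

lemma Co_cob (n : ℕ) {P : Pt QB} (hP : ∀ σ, a σ = 0 → n • f σ = pm (gh σ) P - P) (c : ZMod 3) :
    ∃ Q, ∀ σ, n • Co hi ha f c σ = act hi (fun σ => c * a σ) σ Q - Q := by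
  refine ⟨∑ q : GK i₀ ⧸ HK ha, (1 : GK i₀ →* ℤ) (sec (HK ha) q) • Ac hi ha c (sec (HK ha) q) P,
    fun σ => ?_⟩
  rw [Co_smul]
  have h := cor_cob (sec_spec (HK ha)) (Ac hi ha c) (one_H ha) (f := fun τ => n • f τ) P
    (fun x hx => by
      rw [Ac_H hi ha c ((mem_HK ha x).1 hx)]
      exact hP x ((mem_HK ha x).1 hx)) σ
  have h1 : (1 : GK i₀ →* ℤ) σ = 1 := rfl
  rw [h1, one_smul] at h
  exact h

lemma Co_nhds (hnb : {σ : GK i₀ | a σ = 0 ∧ f σ = 0} ∈ nhds (1 : GK i₀)) (c : ZMod 3) :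
    {σ : GK i₀ | Co hi ha f c σ = 0} ∈ nhds (1 : GK i₀) := by
  have h1 : ∀ q : GK i₀ ⧸ HK ha, {σ : GK i₀ | a ((sec (HK ha) q)⁻¹ * σ * sec (HK ha) q) = 0 ∧
      f ((sec (HK ha) q)⁻¹ * σ * sec (HK ha) q) = 0} ∈ nhds (1 : GK i₀) := by
    intro q
    have hc : Continuous (fun σ : GK i₀ => (sec (HK ha) q)⁻¹ * σ * sec (HK ha) q) :=
      (continuous_const_mul _).mul_const _
    have h2 : Filter.Tendsto (fun σ : GK i₀ => (sec (HK ha) q)⁻¹ * σ * sec (HK ha) q)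
        (nhds (1 : GK i₀)) (nhds ((sec (HK ha) q)⁻¹ * 1 * sec (HK ha) q)) :=
      hc.continuousAt (x := (1 : GK i₀))
    rw [mul_one, inv_mul_cancel] at h2
    exact h2 hnb
  have h2 := (Filter.iInter_mem (f := nhds (1 : GK i₀))).2 h1
  refine Filter.mem_of_superset h2 fun σ hσ => ?_
  have hσ' := Set.mem_iInter.1 hσ
  have h4 : ∀ q : GK i₀ ⧸ HK ha, σ • q = q := by
    intro q
    have h5 : (sec (HK ha) q)⁻¹ * σ * sec (HK ha) q ∈ HK ha := (mem_HK ha _).2 (hσ' q).1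
    rw [mul_assoc, ← QuotientGroup.eq] at h5
    conv_lhs => rw [← sec_spec _ q]
    exact h5.symm.trans (sec_spec _ q)
  show Co hi ha f c σ = 0
  unfold Co
  apply cor_zero_of
  intro q
  rw [h4]
  exact (hσ' q).2

include hf in
lemma Co_lc (hnb : {σ : GK i₀ | a σ = 0 ∧ f σ = 0} ∈ nhds (1 : GK i₀)) (c : ZMod 3) :
    IsLocallyConstant (Co hi ha f c) := by
  rw [IsLocallyConstant.iff_eventually_eq]
  intro σ
  have hc : Continuous (fun τ : GK i₀ => σ⁻¹ * τ) := continuous_const_mul _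
  have h2 : Filter.Tendsto (fun τ : GK i₀ => σ⁻¹ * τ) (nhds σ) (nhds (σ⁻¹ * σ)) :=
    hc.continuousAt (x := σ)
  rw [inv_mul_cancel] at h2
  filter_upwards [h2 (Co_nhds hi ha hnb c)] with τ hτ
  have h3 : Co hi ha f c (σ⁻¹ * τ) = 0 := hτ
  have h4 := Co_coc hi ha hf c σ (σ⁻¹ * τ)
  rw [mul_inv_cancel_left, h3, Pool.Agent.Y155.CT.act_zero, add_zero] at h4
  exact h4

/-- the local data -/
noncomputable def LD (p : ℕ) [Fact p.Prime] :
    Loc (GK i₀) (Pt QB) (QB →ₐ[ℚ] PadicAlgCl p) (Au p) (Pt (PadicAlgCl p)) where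
  a :=
    { toFun := fun σ => pm (gh σ)
      map_one' := by
        ext P
        exact gh_one P
      map_mul' := fun σ τ => by
        ext P
        exact (pm_pm (gh τ) (gh σ) P).symm }
  b :=
    { toFun := fun τ => pm (lh τ)
      map_one' := by
        ext P
        exact pm_id P
      map_mul' := fun σ τ => by
        ext P
        exact (pm_pm (lh τ) (lh σ) P).symm }
  lc τ j := (lh τ).comp j
  rc j g := j.comp (gh g)
  st j := pm j
  lc_mul _ _ _ := rfl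
  lc_one _ := rfl
  rc_mul _ _ _ := rfl
  rc_one _ := rfl
  comm _ _ _ := rfl
  st_l τ j x := (pm_pm j (lh τ) x).symm
  st_r j g x := (pm_pm (gh g) j x).symm

include hf in
lemma Co_loc (p : ℕ) [Fact p.Prime]
    (hloc : ∀ ι : QB →ₐ[ℚ] PadicAlgCl p, ∃ R : Pt (PadicAlgCl p), ∀ (τ : Au p) (σ : GK i₀),
      a σ = 0 → Cmp ι τ σ → pm ι (f σ) = pm (lh τ) R - R)
    (ι : QB →ₐ[ℚ] PadicAlgCl p) (c : ZMod 3) :
    ∃ R : Pt (PadicAlgCl p), ∀ (τ : Au p) (σ : GK i₀), Cmp ι τ σ →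
      pm ι (Co hi ha f c σ) = jj (iota_sq' hi ι) (c * a σ) (pm (lh τ) R) - R := by
  obtain ⟨P, hP⟩ := exists_family (LD (i₀ := i₀) p) (H := HK ha) (f := f)
    (fun x hx y hy => hf x y ((mem_HK ha x).1 hx) ((mem_HK ha y).1 hy)) (fun j => by
      obtain ⟨R, hR⟩ := hloc j
      exact ⟨R, fun τ h hh e => hR τ h ((mem_HK ha h).1 hh) (fun x => DFunLike.congr_fun e x)⟩)
  refine ⟨∑ q : GK i₀ ⧸ HK ha, jj (iota_sq' hi ι) (c * a (sec (HK ha) q))
    (P (ι.comp (gh (sec (HK ha) q)))), fun τ g hc => ?_⟩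
  have hcg : (lh τ).comp ι = ι.comp (gh g) := AlgHom.ext hc
  have ha1 : ∀ q : GK i₀ ⧸ HK ha, a (sec (HK ha) (g • q)) = a g + a (sec (HK ha) q) := by
    intro q
    have h1 := (mem_HK ha _).1 (mem_H (sec_spec (HK ha)) g q)
    have h2 : g * sec (HK ha) q = sec (HK ha) (g • q) *
      ((sec (HK ha) (g • q))⁻¹ * g * sec (HK ha) q) := by group
    rw [← ha, h2, ha, h1, add_zero]
  have e1 : ∑ q : GK i₀ ⧸ HK ha, jj (iota_sq' hi ι) (c * a (sec (HK ha) q))
      (P (ι.comp (gh (sec (HK ha) q)))) =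
      ∑ q : GK i₀ ⧸ HK ha, jj (iota_sq' hi ι) (c * a (sec (HK ha) (g • q)))
        (P (ι.comp (gh (sec (HK ha) (g • q))))) :=
    (Equiv.sum_comp (MulAction.toPerm g : Equiv.Perm (GK i₀ ⧸ HK ha)) (fun q =>
      jj (iota_sq' hi ι) (c * a (sec (HK ha) q)) (P (ι.comp (gh (sec (HK ha) q)))))).symm
  conv_rhs => rw [sub_eq_add_neg]; arg 2; rw [e1]
  rw [← sub_eq_add_neg, map_sum, jj_sum, ← Finset.sum_sub_distrib]
  unfold Co cor
  rw [map_sum]
  refine Finset.sum_congr rfl fun q _ => ?_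
  have h1 : (1 : GK i₀ →* ℤ) (sec (HK ha) (g • q)) = 1 := rfl
  rw [h1, one_smul, Ac_apply, pm_jj hi ι (iota_sq' hi ι) rfl, pm_pm]
  have h2 := hP τ (ι.comp (gh (sec (HK ha) q))) (ι.comp (gh (sec (HK ha) (g • q)))) _
    (mem_H (sec_spec (HK ha)) g q) (by
      show (lh τ).comp (ι.comp (gh (sec (HK ha) q))) =
        (ι.comp (gh (sec (HK ha) (g • q)))).comp (gh _)
      rw [← AlgHom.comp_assoc, hcg]
      apply AlgHom.ext
      intro x
      show ι (g (sec (HK ha) q x)) = ι (sec (HK ha) (g • q) (((sec (HK ha) (g • q))⁻¹ * g *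
        sec (HK ha) q) x))
      rw [← AlgEquiv.mul_apply, ← AlgEquiv.mul_apply]
      congr 2
      group)
  have h3 : pm (ι.comp (gh (sec (HK ha) (g • q))))
      (f ((sec (HK ha) (g • q))⁻¹ * g * sec (HK ha) q)) =
      pm (lh τ) (P (ι.comp (gh (sec (HK ha) q)))) - P (ι.comp (gh (sec (HK ha) (g • q)))) := h2
  rw [h3, jj_sub, pm_jj (iota_sq' hi ι) (lh τ) (iota_sq' hi ι) hc.fix, jj_jj, ha1, mul_add]

include ha hf in
theorem core (hnb : {σ : GK i₀ | a σ = 0 ∧ f σ = 0} ∈ nhds (1 : GK i₀))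
    (hloc : ∀ (p : ℕ) [Fact p.Prime] (ι : QB →ₐ[ℚ] PadicAlgCl p), ∃ R : Pt (PadicAlgCl p),
      ∀ (τ : Au p) (σ : GK i₀), a σ = 0 → Cmp ι τ σ → pm ι (f σ) = pm (lh τ) R - R)
    (hS : ∀ c : ZMod 3, ShK hi (fun σ => c * a σ)) (n : ℕ)
    (hP : ∃ P, ∀ σ, a σ = 0 → 3 ^ n • f σ = pm (gh σ) P - P) :
    ∃ P, ∀ σ, a σ = 0 → 3 • f σ = pm (gh σ) P - P := by
  obtain ⟨P, hP⟩ := hP
  have h1 : ∀ c : ZMod 3, ∃ Q, ∀ σ, Co hi ha f c σ = act hi (fun σ => c * a σ) σ Q - Q :=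
    fun c => hS c n (Co hi ha f c) (Co_lc hi ha hf hnb c) (Co_coc hi ha hf c)
      (fun p _ ι => Co_loc hi ha hf p (hloc p) ι c) (Co_cob hi ha (3 ^ n) hP c)
  choose Q hQ using h1
  refine ⟨∑ c, Q c, fun h hh => ?_⟩
  have hh' : h ∈ HK ha := (mem_HK ha h).2 hh
  have hq : ∀ q : GK i₀ ⧸ HK ha, h • q = q := by
    intro q
    induction q using QuotientGroup.induction_on with
    | H g =>
      change ((h * g : GK i₀) : GK i₀ ⧸ HK ha) = g
      rw [eq_comm, QuotientGroup.eq, ← mul_assoc]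
      have := (inferInstance : (HK ha).Normal).conj_mem h hh' g⁻¹
      rwa [inv_inv] at this
  have h2 : ∑ c : ZMod 3, Co hi ha f c h = 3 • f h := by
    unfold Co cor
    rw [Finset.sum_comm, Finset.sum_eq_single ((1 : GK i₀) : GK i₀ ⧸ HK ha)]
    · have h3 : ∀ c : ZMod 3, (1 : GK i₀ →* ℤ) (sec (HK ha) (h • ((1 : GK i₀) : GK i₀ ⧸ HK ha))) •
          Ac hi ha c (sec (HK ha) (h • ((1 : GK i₀) : GK i₀ ⧸ HK ha)))
            (f ((sec (HK ha) (h • ((1 : GK i₀) : GK i₀ ⧸ HK ha)))⁻¹ * h *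
              sec (HK ha) ((1 : GK i₀) : GK i₀ ⧸ HK ha))) = f h := by
        intro c
        rw [hq, sec_one, map_one, map_one, one_smul, inv_one, one_mul, mul_one]
        rfl
      rw [Finset.sum_congr rfl fun c _ => h3 c, Finset.sum_const]
      rfl
    · intro q _ hq1
      have hne : a (sec (HK ha) q) ≠ 0 := by
        intro h0
        apply hq1
        rw [← sec_spec (HK ha) q, eq_comm, QuotientGroup.eq]
        simpa using (mem_HK ha _).2 h0
      have h3 : ∀ c : ZMod 3, (1 : GK i₀ →* ℤ) (sec (HK ha) (h • q)) •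
          Ac hi ha c (sec (HK ha) (h • q)) (f ((sec (HK ha) (h • q))⁻¹ * h * sec (HK ha) q)) =
          jj hi (c * a (sec (HK ha) q)) (pm (gh (sec (HK ha) q))
            (f ((sec (HK ha) q)⁻¹ * h * sec (HK ha) q))) := by
        intro c
        have h4 : (1 : GK i₀ →* ℤ) (sec (HK ha) (h • q)) = 1 := rfl
        rw [h4, one_smul, hq]
        rfl
      rw [Finset.sum_congr rfl fun c _ => h3 c]
      exact sum_jj hi hne _
    · intro h0
      exact absurd (Finset.mem_univ _) h0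
  rw [← h2, map_sum, ← Finset.sum_sub_distrib]
  refine Finset.sum_congr rfl fun c _ => ?_
  rw [hQ, act_def, hh, mul_zero, jj_z]

end core

end Pool.Agent.Y858.CTE
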